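import Pool.Agent.T2H58.MR.Lower

/-!
# Ramsey numbers of graphs without isolated vertices: numerical part
-/

set_option autoImplicit false

namespace Pool.Agent.T2H58.MR

open Finset Filter Topology

/-- the numerical condition for the random colouring -/
theorem num_cond (n : ℕ) (hn : 2 ^ 16 ≤ n) :
    ∃ t : ℕ, (t : ℝ) ≤ Real.logb 2 n ∧ Real.logb 2 n - 3 * Real.logb 2 (Real.logb 2 n) - 1 ≤ t ∧ t ≤ n ∧
      2 * ((n + t : ℕ) : ℝ) ^ (t + t) * (1 - 1 / 2 ^ t) ^ (n + t - t - t) < 1 := by
  have hn0 : (0 : ℝ) < n := by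
    have : 0 < n := lt_of_lt_of_le (by norm_num) hn
    exact_mod_cast this
  set L : ℝ := Real.logb 2 n with hL
  have hL16 : 16 ≤ L := by
    rw [hL, Real.le_logb_iff_rpow_le (by norm_num) hn0]
    have : ((2 ^ 16 : ℕ) : ℝ) ≤ n := by exact_mod_cast hn
    refine le_trans (le_of_eq ?_) this
    norm_num
  have hL0 : 0 < L := by linarith
  have hpowL : (2 : ℝ) ^ L = n := Real.rpow_logb (by norm_num) (by norm_num) hn0
  have hLn : 2 * L ≤ n := by
    -- `2 ^ L ≥ L ^ 2`
    have h1 : (n : ℝ) = Real.exp (L * Real.log 2) := by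
      rw [← hpowL, Real.rpow_def_of_pos (by norm_num), mul_comm]
    have h2 : (0.5 : ℝ) ≤ Real.log 2 := by
      have := Real.log_two_gt_d9
      linarith
    have h3 : (L * Real.log 2) ^ 2 / 2 ≤ Real.exp (L * Real.log 2) := by
      have := Real.quadratic_le_exp_of_nonneg (x := L * Real.log 2) (by positivity)
      have : 0 ≤ L * Real.log 2 := by positivity
      linarith
    have h4 : L * 0.5 ≤ L * Real.log 2 := mul_le_mul_of_nonneg_left h2 hL0.le
    have h5 : (L * 0.5) ^ 2 ≤ (L * Real.log 2) ^ 2 := pow_le_pow_left₀ (by positivity) h4 2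
    rw [h1]
    nlinarith
  obtain ⟨x, hx⟩ : ∃ x, x = L - 3 * Real.logb 2 L := ⟨_, rfl⟩
  have hlogL : 1 ≤ Real.logb 2 L := by
    rw [Real.le_logb_iff_rpow_le (by norm_num) hL0]
    norm_num
    linarith
  refine ⟨⌊x⌋₊, ?_, ?_, ?_, ?_⟩
  · rcases le_or_gt 0 x with h | h
    · refine (Nat.floor_le h).trans ?_
      linarith
    · rw [Nat.floor_of_nonpos h.le]
      simpa using hL0.le
  · have := Nat.lt_floor_add_one x
    linarith
  · rw [← Nat.cast_le (α := ℝ)]
    rcases le_or_gt 0 x with h | h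
    · refine (Nat.floor_le h).trans ?_
      linarith
    · rw [Nat.floor_of_nonpos h.le]
      simp
  · set t := ⌊x⌋₊ with ht
    have htL : (t : ℝ) ≤ L := by
      rcases le_or_gt 0 x with h | h
      · refine (Nat.floor_le h).trans ?_
        linarith
      · rw [ht, Nat.floor_of_nonpos h.le]
        simpa using hL0.le
    have htn : 2 * (t : ℝ) ≤ n := by linarith
    have htn' : t ≤ n := by
      have : (t : ℝ) ≤ n := by linarith
      exact_mod_cast this
    have hx0 : 0 ≤ x := by
      -- `L ≥ 3 log L`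
      have h1 : Real.logb 2 L ≤ L / 4 := by
        rw [Real.logb_le_iff_le_rpow (by norm_num) hL0]
        have h2 : (2 : ℝ) ^ (L / 4) = Real.exp ((L / 4) * Real.log 2) := by
          rw [Real.rpow_def_of_pos (by norm_num), mul_comm]
        -- write `L = 16 + 4 y`
        have h3 : (2 : ℝ) ^ (L / 4) = 16 * (2 : ℝ) ^ (L / 4 - 4) := by
          rw [Real.rpow_sub (by norm_num)]
          norm_num
          field_simp
        have h4 : 1 + (L / 4 - 4) * Real.log 2 ≤ (2 : ℝ) ^ (L / 4 - 4) := by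
          rw [Real.rpow_def_of_pos (by norm_num)]
          have := Real.add_one_le_exp (Real.log 2 * (L / 4 - 4))
          linarith
        have h5 : (0.5 : ℝ) ≤ Real.log 2 := by
          have := Real.log_two_gt_d9
          linarith
        rw [h3]
        nlinarith
      rw [hx]
      linarith
    have h2t : (2 : ℝ) ^ t * L ^ 3 ≤ n := by
      have h1 : (2 : ℝ) ^ (t : ℝ) ≤ (2 : ℝ) ^ x :=
        Real.rpow_le_rpow_of_exponent_le (by norm_num) (Nat.floor_le hx0)
      have h2 : (2 : ℝ) ^ x = n / L ^ 3 := by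
        rw [hx, Real.rpow_sub (by norm_num), hpowL, mul_comm 3, Real.rpow_mul (by norm_num),
          Real.rpow_logb (by norm_num) (by norm_num) hL0]
        norm_num
      rw [Real.rpow_natCast, h2] at h1
      rwa [le_div_iff₀ (by positivity)] at h1
    have hNat : n + t - t - t = n - t := by omega
    rw [hNat]
    have hq : (0 : ℝ) ≤ 1 - 1 / 2 ^ t := by
      rw [sub_nonneg, div_le_one (by positivity)]
      exact one_le_pow₀ (by norm_num)
    have h1 : (1 - 1 / (2 : ℝ) ^ t) ^ (n - t) ≤ Real.exp (-(L ^ 3 / 2)) := by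
      calc (1 - 1 / (2 : ℝ) ^ t) ^ (n - t) ≤ (Real.exp (-(1 / 2 ^ t))) ^ (n - t) :=
            pow_le_pow_left₀ hq (Real.one_sub_le_exp_neg _) _
        _ = Real.exp (-(((n - t : ℕ) : ℝ) / 2 ^ t)) := by
            rw [← Real.exp_nat_mul]
            congr 1
            ring
        _ ≤ _ := by
            rw [Real.exp_le_exp, neg_le_neg_iff, le_div_iff₀ (by positivity), Nat.cast_sub htn']
            have h3 : (2 : ℝ) ^ t * L ^ 3 / 2 ≤ n / 2 := by linarith
            linarith
    have h2 : (2 : ℝ) * ((n + t : ℕ) : ℝ) ^ (t + t) ≤ Real.exp (1 + 2 * L * (L + 1)) := by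
      have h3 : ((n + t : ℕ) : ℝ) ≤ Real.exp (L + 1) := by
        have h4 : Real.exp (L * Real.log 2 + Real.log 2) = n * 2 := by
          rw [Real.exp_add, Real.exp_log (by norm_num), ← hpowL, Real.rpow_def_of_pos (by norm_num),
            mul_comm L]
        have h5 : Real.exp (L * Real.log 2 + Real.log 2) ≤ Real.exp (L + 1) := by
          rw [Real.exp_le_exp]
          have h6 : Real.log 2 ≤ 1 := by
            have := Real.log_two_lt_d9
            linarith
          nlinarith
        push_cast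
        linarith
      have h4 : ((n + t : ℕ) : ℝ) ^ (t + t) ≤ Real.exp (2 * L * (L + 1)) := by
        calc ((n + t : ℕ) : ℝ) ^ (t + t) ≤ (Real.exp (L + 1)) ^ (t + t) :=
              pow_le_pow_left₀ (by positivity) h3 _
          _ = Real.exp (((t + t : ℕ) : ℝ) * (L + 1)) := by rw [← Real.exp_nat_mul]
          _ ≤ _ := by
              rw [Real.exp_le_exp]
              push_cast
              refine mul_le_mul_of_nonneg_right ?_ (by linarith)
              linarith
      have h5 : (2 : ℝ) ≤ Real.exp 1 := by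
        have := Real.exp_one_gt_d9
        linarith
      rw [Real.exp_add]
      exact mul_le_mul h5 h4 (by positivity) (Real.exp_pos _).le
    calc (2 : ℝ) * ((n + t : ℕ) : ℝ) ^ (t + t) * (1 - 1 / 2 ^ t) ^ (n - t) ≤
        Real.exp (1 + 2 * L * (L + 1)) * Real.exp (-(L ^ 3 / 2)) :=
          mul_le_mul h2 h1 (pow_nonneg hq _) (Real.exp_pos _).le
      _ = Real.exp (1 + 2 * L * (L + 1) - L ^ 3 / 2) := by
          rw [← Real.exp_add]
          ring_nf
      _ < 1 := by
          rw [Real.exp_lt_one_iff]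
          nlinarith [mul_nonneg (sub_nonneg.2 hL16) (sub_nonneg.2 hL16),
            mul_nonneg (mul_nonneg (sub_nonneg.2 hL16) (sub_nonneg.2 hL16)) (sub_nonneg.2 hL16)]

/-- the lower bound -/
theorem lower (n : ℕ) (hn : 2 ^ 16 ≤ n) :
    ∀ (H : SimpleGraph (Fin n)), (∀ v, ∃ w, H.Adj v w) → ∀ N, Arrows N H →
      n + Real.logb 2 n - 3 * Real.logb 2 (Real.logb 2 n) - 1 ≤ (N : ℝ) := by
  intro H hiso N hN
  obtain ⟨t, -, ht, htn, hcond⟩ := num_cond n hn
  have key : n + t ≤ N := by
    by_cases hcov : ∃ C : Finset (Fin n), C.card ≤ t ∧ ∀ u v, H.Adj u v → u ∈ C ∨ v ∈ C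
    · obtain ⟨C, hC, hCc⟩ := hcov
      obtain ⟨c, hc⟩ := exists_spread (n + t) t t (by omega) hcond
      by_contra hlt
      push Not at hlt
      exact lower_spread htn le_rfl H hiso C hC hCc c hc (hN.mono hlt.le c)
    · push Not at hcov
      exact lower_cover (le_trans (by norm_num) hn) H hiso hcov hN
  have : ((n + t : ℕ) : ℝ) ≤ N := by exact_mod_cast key
  push_cast at this
  linarith

/-- the upper bound -/
theorem upper (n : ℕ) (hn : 2 ≤ n) : ∃ (H : SimpleGraph (Fin n)) (N : ℕ), (∀ v, ∃ w, H.Adj v w) ∧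
    Arrows N H ∧ (N : ℝ) ≤ n + Real.logb 2 n + 3 := by
  obtain ⟨k, h1, h2, h3, h4⟩ := exists_k n hn
  obtain ⟨H, h5, h6⟩ := exists_graph k n h1 h2 h3
  refine ⟨H, n + k + 2, h5, h6, ?_⟩
  have hn0 : (0 : ℝ) < n := by
    have : 0 < n := by omega
    exact_mod_cast this
  have h7 : (k : ℝ) ≤ Real.logb 2 n + 1 := by
    have h8 : Real.logb 2 (2 * n) = 1 + Real.logb 2 n := by
      rw [Real.logb_mul (by norm_num) hn0.ne', Real.logb_self_eq_one (by norm_num)]
    have h9 : (k : ℝ) ≤ Real.logb 2 (2 * n) := by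
      rw [Real.le_logb_iff_rpow_le (by norm_num) (by positivity), Real.rpow_natCast]
      exact_mod_cast h4
    linarith
  push_cast
  linarith

end Pool.Agent.T2H58.MR
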