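import Pool.Agent.T2H58.MR.Upper

/-!
# Ramsey numbers of star forests: the graphs
-/

set_option autoImplicit false

namespace Pool.Agent.T2H58.MR

open Finset

/-- Every 2-colouring of the edges of `K_N` contains a monochromatic copy of `H`. -/
def Arrows {W : Type} (N : ℕ) (H : SimpleGraph W) : Prop :=
  ∀ c : Sym2 (Fin N) → Bool, ∃ (b : Bool) (φ : W → Fin N), Function.Injective φ ∧
    ∀ u v, H.Adj u v → c s(φ u, φ v) = b

/-- put a number in front of a sequence -/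
def consSeq (x : ℕ) (l : ℕ → ℕ) : ℕ → ℕ
  | 0 => x
  | i + 1 => l i

/-- the sizes of the stars -/
theorem sizes : ∀ k n : ℕ, 2 * k ≤ n → n + 1 ≤ 2 ^ k + 2 * k → ∃ l : ℕ → ℕ, (∀ i < k, 1 ≤ l i) ∧
    ∑ i ∈ range k, (l i + 1) = n ∧
    ∀ a < k, 2 * (l a + (k - a)) + a + (k - 1) + ∑ i ∈ range a, l i ≤ n + k + 2 := by
  intro k
  induction k with
  | zero =>
    intro n _ h
    refine ⟨fun _ => 0, by simp, ?_, by simp⟩
    simp at h ⊢
    omega
  | succ k ih =>
    intro n h1 h2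
    rw [pow_succ] at h2
    obtain ⟨t, ht⟩ : ∃ t, t = (n + 3 - 2 * k) / 2 := ⟨_, rfl⟩
    obtain ⟨l, hl1, hl2, hl3⟩ := ih (n - t) (by omega) (by omega)
    refine ⟨consSeq (t - 1) l, ?_, ?_, ?_⟩
    · intro i hi
      cases i with
      | zero => rw [consSeq]; omega
      | succ i => exact hl1 i (by omega)
    · rw [sum_range_succ']
      have : ∑ i ∈ range k, (consSeq (t - 1) l (i + 1) + 1) = n - t := hl2
      rw [this, consSeq]
      omega
    · intro a ha
      cases a with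
      | zero =>
        rw [range_zero, sum_empty, consSeq]
        omega
      | succ a =>
        have h3 := hl3 a (by omega)
        rw [sum_range_succ']
        have : ∑ i ∈ range a, consSeq (t - 1) l (i + 1) = ∑ i ∈ range a, l i := rfl
        rw [this, consSeq, consSeq]
        omega

/-- the star forest with `k` stars with `l 0, …, l (k-1)` leaves -/
def starForest (k : ℕ) (l : ℕ → ℕ) : SimpleGraph (Σ i : Fin k, Fin (l i + 1)) where
  Adj x y := x.1 = y.1 ∧ ((x.2.val = 0 ∧ y.2.val ≠ 0) ∨ (x.2.val ≠ 0 ∧ y.2.val = 0))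
  symm := ⟨fun x y h => ⟨h.1.symm, by rcases h.2 with h | h <;> [right; left] <;> exact ⟨h.2, h.1⟩⟩⟩
  loopless := ⟨fun x h => by rcases h.2 with h | h <;> omega⟩

theorem starForest_noIso (k : ℕ) (l : ℕ → ℕ) (hl : ∀ i < k, 1 ≤ l i) (x : Σ i : Fin k, Fin (l i + 1)) :
    ∃ y, (starForest k l).Adj x y := by
  obtain ⟨i, j⟩ := x
  by_cases hj : j.val = 0
  · exact ⟨⟨i, ⟨1, by have := hl i i.2; omega⟩⟩, rfl, Or.inl ⟨hj, by simp⟩⟩
  · exact ⟨⟨i, ⟨0, by omega⟩⟩, rfl, Or.inr ⟨hj, rfl⟩⟩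

theorem starForest_arrows (k : ℕ) (l : ℕ → ℕ) (N : ℕ) (hN : 0 < N)
    (hl : ∀ a < k, 2 * (l a + (k - a)) + a + (k - 1) + ∑ i ∈ range a, l i ≤ N) :
    Arrows N (starForest k l) := by
  intro c
  have : Nonempty (Fin N) := ⟨⟨0, hN⟩⟩
  obtain ⟨d, t, L, h1, h2, h3, h4, h5⟩ := mono_stars c l k (by simpa using hl)
  have hc : ∀ i : Fin k, (L i).card = l i := fun i => h2 i i.2
  let e : ∀ i : Fin k, Fin (l i) ≃ L i := fun i => (Finset.equivFinOfCardEq (hc i)).symm
  let φ : (Σ i : Fin k, Fin (l i + 1)) → Fin N := fun x =>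
    if h : x.2.val = 0 then t x.1 else (e x.1 ⟨x.2.val - 1, by have := x.2.2; omega⟩ : Fin N)
  have φ0 : ∀ x : (Σ i : Fin k, Fin (l i + 1)), x.2.val = 0 → φ x = t x.1 := fun x hx => dif_pos hx
  have φ1 : ∀ (x : (Σ i : Fin k, Fin (l i + 1))) (hx : x.2.val ≠ 0),
      φ x = (e x.1 ⟨x.2.val - 1, by have := x.2.2; omega⟩ : Fin N) := fun x hx => dif_neg hx
  have φm : ∀ x : (Σ i : Fin k, Fin (l i + 1)), x.2.val ≠ 0 → φ x ∈ L x.1 := by
    intro x hx
    rw [φ1 x hx]
    exact (e x.1 _).2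
  refine ⟨d, φ, ?_, ?_⟩
  · intro x y hxy
    by_cases hx : x.2.val = 0
    · by_cases hy : y.2.val = 0
      · rw [φ0 x hx, φ0 y hy] at hxy
        have h6 : x.1 = y.1 := Fin.ext (h1 _ x.1.2 _ y.1.2 hxy)
        obtain ⟨i, j⟩ := x
        obtain ⟨i', j'⟩ := y
        simp only at h6
        subst h6
        have : j = j' := Fin.ext (by simp only at hx hy; omega)
        rw [this]
      · exfalso
        have h6 := φm y hy
        rw [← hxy, φ0 x hx] at h6
        exact h4 _ x.1.2 _ y.1.2 h6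
    · by_cases hy : y.2.val = 0
      · exfalso
        have h6 := φm x hx
        rw [hxy, φ0 y hy] at h6
        exact h4 _ y.1.2 _ x.1.2 h6
      · have h6 : x.1 = y.1 := by
          by_contra hne
          have h7 := h5 x.1 x.1.2 y.1 y.1.2 (fun e => hne (Fin.ext e))
          exact disjoint_left.1 h7 (φm x hx) (hxy ▸ φm y hy)
        rw [φ1 x hx, φ1 y hy] at hxy
        obtain ⟨i, j⟩ := x
        obtain ⟨i', j'⟩ := y
        simp only at h6
        subst h6
        simp only at hx hy hxy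
        have h7 := (e i).injective (Subtype.ext hxy)
        rw [Fin.mk.injEq] at h7
        have : j = j' := Fin.ext (by omega)
        rw [this]
  · rintro x y ⟨hxy, h⟩
    rcases h with ⟨hx, hy⟩ | ⟨hx, hy⟩
    · rw [φ0 x hx]
      have h6 := φm y hy
      rw [← hxy] at h6
      exact h3 _ x.1.2 _ h6
    · rw [φ0 y hy, Sym2.eq_swap]
      have h6 := φm x hx
      rw [hxy] at h6
      exact h3 _ y.1.2 _ h6

/-- the graphs on `Fin n` -/
theorem exists_graph (k n : ℕ) (h1 : 1 ≤ k) (h2 : 2 * k ≤ n) (h3 : n + 1 ≤ 2 ^ k + 2 * k) :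
    ∃ H : SimpleGraph (Fin n), (∀ v, ∃ w, H.Adj v w) ∧ Arrows (n + k + 2) H := by
  obtain ⟨l, hl1, hl2, hl3⟩ := sizes k n h2 h3
  have hcard : Fintype.card (Σ i : Fin k, Fin (l i + 1)) = n := by
    rw [Fintype.card_sigma, ← hl2, Finset.sum_range]
    simp
  let e : (Σ i : Fin k, Fin (l i + 1)) ≃ Fin n := Fintype.equivFinOfCardEq hcard
  refine ⟨(starForest k l).comap e.symm, ?_, ?_⟩
  · intro v
    obtain ⟨y, hy⟩ := starForest_noIso k l hl1 (e.symm v)
    exact ⟨e y, by simpa using hy⟩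
  · intro c
    obtain ⟨b, φ, h4, h5⟩ := starForest_arrows k l (n + k + 2) (by omega) hl3 c
    exact ⟨b, φ ∘ e.symm, h4.comp e.symm.injective, fun u v huv => h5 _ _ huv⟩

/-- for every `n ≥ 2` there is a suitable number of stars -/
theorem exists_k (n : ℕ) (hn : 2 ≤ n) : ∃ k, 1 ≤ k ∧ 2 * k ≤ n ∧ n + 1 ≤ 2 ^ k + 2 * k ∧ 2 ^ k ≤ 2 * n := by
  have hex : ∃ k, n + 1 ≤ 2 ^ k + 2 * k := ⟨n, by have := Nat.lt_two_pow_self (n := n); omega⟩
  classical
  refine ⟨Nat.find hex, ?_, ?_, Nat.find_spec hex, ?_⟩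
  all_goals
    have h1 := Nat.find_spec hex
    have h2 : 1 ≤ Nat.find hex := by
      rcases Nat.eq_zero_or_pos (Nat.find hex) with h | h
      · rw [h] at h1
        simp at h1
        omega
      · exact h
  · exact h2
  · obtain ⟨j, hj⟩ : ∃ j, Nat.find hex = j + 1 := ⟨Nat.find hex - 1, by omega⟩
    have h3 := Nat.find_min hex (m := j) (by omega)
    rw [hj]
    push Not at h3
    rcases Nat.eq_zero_or_pos j with rfl | hj0
    · omega
    · have : 2 ≤ 2 ^ j := by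
        calc 2 = 2 ^ 1 := rfl
          _ ≤ 2 ^ j := Nat.pow_le_pow_right (by norm_num) hj0
      omega
  · obtain ⟨j, hj⟩ : ∃ j, Nat.find hex = j + 1 := ⟨Nat.find hex - 1, by omega⟩
    have h3 := Nat.find_min hex (m := j) (by omega)
    rw [hj, pow_succ]
    push Not at h3
    omega

end Pool.Agent.T2H58.MR
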