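import Pool.Agent.T2H58.MR.Forest
import Pool.Agent.Helper507.SK.Ram

/-!
# Ramsey numbers of graphs without isolated vertices: lower bounds (Burr, Erdős)
-/

set_option autoImplicit false

namespace Pool.Agent.T2H58.MR

open Finset

theorem Arrows.mono {W : Type} {N N' : ℕ} {H : SimpleGraph W} (h : Arrows N H) (hN : N ≤ N') :
    Arrows N' H := by
  intro c
  obtain ⟨b, φ, h1, h2⟩ := h (fun e => c (e.map (Fin.castLE hN)))
  refine ⟨b, fun w => Fin.castLE hN (φ w), fun x y hxy => h1 (Fin.castLE_injective hN hxy), ?_⟩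
  intro u v huv
  have := h2 u v huv
  simpa using this

theorem exists_arrows {n : ℕ} (H : SimpleGraph (Fin n)) : ∃ N, Arrows N H := by
  obtain ⟨N, hN⟩ := Pool.Agent.Helper507.SK.ramsey n n
  refine ⟨N, fun c => ?_⟩
  have key : ∀ (b : Bool) (Q : Finset (Fin N)), Q.card = n → (∀ x ∈ Q, ∀ y ∈ Q, x ≠ y → c s(x, y) = b) →
      ∃ (b : Bool) (φ : Fin n → Fin N), Function.Injective φ ∧ ∀ u v, H.Adj u v → c s(φ u, φ v) = b := by
    intro b Q hQ h
    let e : Fin n ≃ Q := (Finset.equivFinOfCardEq hQ).symm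
    refine ⟨b, fun u => (e u : Fin N), fun u v huv => e.injective (Subtype.ext huv), ?_⟩
    intro u v huv
    exact h _ (e u).2 _ (e v).2 fun he => huv.ne (e.injective (Subtype.ext he))
  rcases hN (Fin N) (fun x y => c s(x, y) = true) (fun x y h => by rw [Sym2.eq_swap]; exact h) univ
    (by simp) with ⟨Q, -, hQ, h⟩ | ⟨Q, -, hQ, h⟩
  · exact key true Q hQ h
  · exact key false Q hQ fun x hx y hy hxy => by simpa using h x hx y hy hxy

/-- graphs with large vertex cover number -/
theorem lower_cover {n t N : ℕ} (hn : 1 ≤ n) (H : SimpleGraph (Fin n)) (hiso : ∀ v, ∃ w, H.Adj v w)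
    (hcov : ∀ C : Finset (Fin n), C.card ≤ t → ∃ u v, H.Adj u v ∧ u ∉ C ∧ v ∉ C)
    (h : Arrows N H) : n + t ≤ N := by
  by_contra hlt
  push Not at hlt
  obtain ⟨b, φ, hφ, hc⟩ := h (fun e => decide (∀ x ∈ e, x.val + 1 < n))
  simp only [Sym2.ball] at hc
  cases b with
  | true =>
    have h1 : ∀ v, (φ v).val + 1 < n := fun v => by
      obtain ⟨w, hw⟩ := hiso v
      have := hc v w hw
      simp at this
      exact this.1
    have h2 : Function.Injective (fun v : Fin n => (⟨(φ v).val, by have := h1 v; omega⟩ : Fin (n - 1))) := by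
      intro u v huv
      exact hφ (Fin.ext (by simpa using huv))
    have := Fintype.card_le_of_injective _ h2
    simp at this
    omega
  | false =>
    obtain ⟨u, v, huv, hu, hv⟩ := hcov (univ.filter fun v => n ≤ (φ v).val + 1) (by
      have h2 : ((univ.filter fun v : Fin n => n ≤ (φ v).val + 1).image fun v => (φ v).val) ⊆
          Ico (n - 1) N := by
        intro x hx
        obtain ⟨v, hv, rfl⟩ := mem_image.1 hx
        have h3 := (mem_filter.1 hv).2
        have h4 := (φ v).2
        rw [mem_Ico]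
        omega
      have h3 := card_le_card h2
      rw [card_image_of_injective, Nat.card_Ico] at h3
      · omega
      · intro u v huv
        exact hφ (Fin.ext huv))
    simp only [mem_filter, mem_univ, true_and, not_le] at hu hv
    have := hc u v huv
    simp at this
    have := this hu
    omega

/-- no small set dominates almost everything in one colour -/
def Spread (N t m : ℕ) (c : Sym2 (Fin N) → Bool) : Prop :=
  ∀ (b : Bool) (S : Finset (Fin N)), S.card = t →
    m < (univ.filter fun w => w ∉ S ∧ ∀ s ∈ S, c s(s, w) ≠ b).card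

/-- graphs with small vertex cover number -/
theorem lower_spread {n t m N : ℕ} (ht : t ≤ n) (hN : N ≤ n + m) (H : SimpleGraph (Fin n))
    (hiso : ∀ v, ∃ w, H.Adj v w) (C : Finset (Fin n)) (hC : C.card ≤ t)
    (hcov : ∀ u v, H.Adj u v → u ∈ C ∨ v ∈ C) (c : Sym2 (Fin N) → Bool) (hc : Spread N t m c) :
    ¬ ∃ (b : Bool) (φ : Fin n → Fin N), Function.Injective φ ∧ ∀ u v, H.Adj u v → c s(φ u, φ v) = b := by
  rintro ⟨b, φ, hφ, h⟩
  obtain ⟨C', hCC', hC'⟩ := Finset.exists_superset_card_eq hC (by simpa using ht)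
  have h1 := hc b (C'.image φ) (by rw [card_image_of_injective _ hφ, hC'])
  have h2 : Disjoint (univ.filter fun w => w ∉ C'.image φ ∧ ∀ s ∈ C'.image φ, c s(s, w) ≠ b)
      (univ.image φ) := by
    rw [disjoint_left]
    intro w hw hw'
    obtain ⟨v, -, rfl⟩ := mem_image.1 hw'
    obtain ⟨-, h3, h4⟩ := mem_filter.1 hw
    have h5 : v ∉ C' := fun h => h3 (mem_image_of_mem _ h)
    obtain ⟨u, hu⟩ := hiso v
    have h6 : u ∈ C' := by
      rcases hcov v u hu with h | h
      · exact absurd (hCC' h) h5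
      · exact hCC' h
    exact h4 (φ u) (mem_image_of_mem _ h6) (h u v hu.symm)
  have h3 := card_le_card (subset_univ ((univ.filter fun w => w ∉ C'.image φ ∧
    ∀ s ∈ C'.image φ, c s(s, w) ≠ b) ∪ univ.image φ))
  rw [card_union_of_disjoint h2, card_image_of_injective _ hφ] at h3
  simp only [card_univ, Fintype.card_fin] at h3
  omega

/-- the colourings for which `T` is dominated by `S` in the colour `b` -/
def dom {N : ℕ} (b : Bool) (S T : Finset (Fin N)) : Finset (Sym2 (Fin N) → Bool) :=
  univ.filter fun c => ∀ w ∈ T, ∃ s ∈ S, c s(s, w) = b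

theorem dom_card_insert {N : ℕ} (b : Bool) (S T : Finset (Fin N)) (w : Fin N) (hwT : w ∉ T) (hwS : w ∉ S)
    (hST : Disjoint S T) :
    2 ^ S.card * (dom b S (insert w T)).card ≤ (2 ^ S.card - 1) * (dom b S T).card := by
  classical
  set D := (dom b S T).filter fun c => ∀ s ∈ S, c s(s, w) ≠ b with hD
  have h1 : (dom b S (insert w T)).card + D.card = (dom b S T).card := by
    have h2 : dom b S (insert w T) = (dom b S T).filter fun c => ¬ ∀ s ∈ S, c s(s, w) ≠ b := by
      ext c
      simp only [dom, mem_filter, mem_univ, true_and, mem_insert, forall_eq_or_imp]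
      push Not
      tauto
    rw [h2, hD, add_comm]
    exact card_filter_add_card_filter_not (s := dom b S T) _
  have h3 : (dom b S T).card ≤ D.card * 2 ^ S.card := by
    rw [← card_powerset, ← card_product]
    refine card_le_card_of_injOn
      (fun c => (fun e => if ∃ s ∈ S, e = s(s, w) then !b else c e, S.filter fun s => c s(s, w) = true)) ?_ ?_
    · intro c hc
      rw [mem_coe] at hc ⊢
      have hc' := (mem_filter.1 hc).2
      rw [mem_product]
      refine ⟨?_, mem_powerset.2 (filter_subset _ _)⟩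
      rw [hD, mem_filter]
      refine ⟨?_, ?_⟩
      · rw [dom, mem_filter]
        refine ⟨mem_univ _, fun w' hw' => ?_⟩
        obtain ⟨s, hs, hcs⟩ := hc' w' hw'
        refine ⟨s, hs, ?_⟩
        have : ¬ ∃ s' ∈ S, s(s, w') = s(s', w) := by
          rintro ⟨s', hs', he⟩
          rw [Sym2.eq_iff] at he
          rcases he with ⟨-, rfl⟩ | ⟨-, rfl⟩
          · exact hwT hw'
          · exact disjoint_left.1 hST hs' hw'
        simp only [this, if_false]
        exact hcs
      · intro s hs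
        have : ∃ s' ∈ S, s(s, w) = s(s', w) := ⟨s, hs, rfl⟩
        simp only [this, if_true]
        cases b <;> simp
    · intro c _ c' _ hcc
      simp only [Prod.mk.injEq] at hcc
      obtain ⟨h4, h5⟩ := hcc
      funext e
      by_cases he : ∃ s ∈ S, e = s(s, w)
      · obtain ⟨s, hs, rfl⟩ := he
        have h6 : s ∈ (S.filter fun s => c s(s, w) = true) ↔ s ∈ (S.filter fun s => c' s(s, w) = true) := by
          rw [h5]
        simp only [mem_filter, hs, true_and] at h6
        exact Bool.eq_iff_iff.2 h6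
      · have h6 := congrFun h4 e
        simpa only [he, if_false] using h6
  have h4 : 1 ≤ 2 ^ S.card := Nat.one_le_two_pow
  have key : ∀ p x d y : ℕ, 1 ≤ p → x + d = y → y ≤ d * p → p * x ≤ (p - 1) * y := by
    intro p x d y hp h1 h2
    subst h1
    obtain ⟨q, rfl⟩ : ∃ q, p = q + 1 := ⟨p - 1, by omega⟩
    simp only [Nat.add_sub_cancel]
    nlinarith
  exact key _ _ _ _ h4 h1 h3

theorem dom_card {N : ℕ} (b : Bool) (S T : Finset (Fin N)) (hST : Disjoint S T) :
    ((dom b S T).card : ℝ) ≤ (Fintype.card (Sym2 (Fin N) → Bool) : ℝ) * (1 - 1 / 2 ^ S.card) ^ T.card := by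
  classical
  induction T using Finset.induction_on with
  | empty =>
    simp only [card_empty, pow_zero, mul_one]
    exact_mod_cast card_le_univ _
  | insert w T hw ih =>
    rw [disjoint_insert_right] at hST
    have h1 := dom_card_insert b S T w hw hST.1 hST.2
    have h2 := ih hST.2
    rw [card_insert_of_notMem hw, pow_succ]
    have h3 : (0 : ℝ) < 2 ^ S.card := by positivity
    have h4 : 1 ≤ 2 ^ S.card := Nat.one_le_two_pow
    have h5 : (2 : ℝ) ^ S.card * ((dom b S (insert w T)).card : ℝ) ≤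
        (2 ^ S.card - 1) * ((dom b S T).card : ℝ) := by
      have : ((2 ^ S.card * (dom b S (insert w T)).card : ℕ) : ℝ) ≤
          (((2 ^ S.card - 1) * (dom b S T).card : ℕ) : ℝ) := by exact_mod_cast h1
      push_cast [Nat.cast_sub h4] at this
      exact this
    have h6 : ((dom b S (insert w T)).card : ℝ) ≤ (1 - 1 / 2 ^ S.card) * ((dom b S T).card : ℝ) := by
      rw [← sub_nonneg] at h5 ⊢
      have h7 : (1 - 1 / (2 : ℝ) ^ S.card) * ((dom b S T).card : ℝ) - ((dom b S (insert w T)).card : ℝ) =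
          ((2 ^ S.card - 1) * ((dom b S T).card : ℝ) -
            (2 : ℝ) ^ S.card * ((dom b S (insert w T)).card : ℝ)) / 2 ^ S.card := by
        field_simp
      rw [h7]
      exact div_nonneg h5 h3.le
    have h7 : (0 : ℝ) ≤ 1 - 1 / 2 ^ S.card := by
      rw [sub_nonneg, div_le_one h3]
      exact_mod_cast h4
    calc ((dom b S (insert w T)).card : ℝ) ≤ (1 - 1 / 2 ^ S.card) * ((dom b S T).card : ℝ) := h6
      _ ≤ (1 - 1 / 2 ^ S.card) * ((Fintype.card (Sym2 (Fin N) → Bool) : ℝ) * (1 - 1 / 2 ^ S.card) ^ T.card) :=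
          mul_le_mul_of_nonneg_left h2 h7
      _ = _ := by ring

theorem exists_spread (N t m : ℕ) (htm : t + m ≤ N)
    (h : 2 * (N : ℝ) ^ (t + m) * (1 - 1 / 2 ^ t) ^ (N - t - m) < 1) :
    ∃ c : Sym2 (Fin N) → Bool, Spread N t m c := by
  classical
  by_contra hcon
  push Not at hcon
  set P : Finset (Bool × Finset (Fin N) × Finset (Fin N)) :=
    univ ×ˢ (powersetCard t univ ×ˢ powersetCard m univ) with hP
  have hcover : (univ : Finset (Sym2 (Fin N) → Bool)) ⊆
      P.biUnion fun x => dom x.1 x.2.1 (univ \ (x.2.1 ∪ x.2.2)) := by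
    intro c _
    have h1 := hcon c
    unfold Spread at h1
    push Not at h1
    obtain ⟨b, S, hS, hU⟩ := h1
    obtain ⟨U, hU1, hU2⟩ := Finset.exists_superset_card_eq hU (by simp; omega)
    rw [mem_biUnion]
    refine ⟨(b, S, U), ?_, ?_⟩
    · rw [hP, mem_product, mem_product]
      exact ⟨mem_univ _, mem_powersetCard.2 ⟨subset_univ _, hS⟩, mem_powersetCard.2 ⟨subset_univ _, hU2⟩⟩
    · rw [dom, mem_filter]
      refine ⟨mem_univ _, fun w hw => ?_⟩
      simp only [mem_sdiff, mem_univ, true_and, mem_union, not_or] at hw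
      by_contra hno
      push Not at hno
      exact hw.2 (hU1 (mem_filter.2 ⟨mem_univ _, hw.1, hno⟩))
  have h1 := (card_le_card hcover).trans card_biUnion_le
  rw [card_univ] at h1
  have h0 : (0 : ℝ) ≤ 1 - 1 / 2 ^ t := by
    rw [sub_nonneg, div_le_one (by positivity)]
    exact one_le_pow₀ (by norm_num)
  have h01 : (1 : ℝ) - 1 / 2 ^ t ≤ 1 := by
    have : (0 : ℝ) ≤ 1 / 2 ^ t := by positivity
    linarith
  have h2 : ∀ x ∈ P, ((dom x.1 x.2.1 (univ \ (x.2.1 ∪ x.2.2))).card : ℝ) ≤
      (Fintype.card (Sym2 (Fin N) → Bool) : ℝ) * (1 - 1 / 2 ^ t) ^ (N - t - m) := by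
    intro x hx
    rw [hP, mem_product, mem_product, mem_powersetCard, mem_powersetCard] at hx
    obtain ⟨-, ⟨-, hS⟩, ⟨-, hU⟩⟩ := hx
    refine (dom_card x.1 x.2.1 _ ?_).trans ?_
    · rw [disjoint_left]
      intro w hw hw'
      simp only [mem_sdiff, mem_univ, true_and, mem_union, not_or] at hw'
      exact hw'.1 hw
    · rw [hS]
      refine mul_le_mul_of_nonneg_left (pow_le_pow_of_le_one h0 h01 ?_) (by positivity)
      have h3 := card_union_le x.2.1 x.2.2
      have h4 := le_card_sdiff (x.2.1 ∪ x.2.2) (univ : Finset (Fin N))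
      rw [card_univ, Fintype.card_fin] at h4
      omega
  have h3 : (Fintype.card (Sym2 (Fin N) → Bool) : ℝ) ≤
      P.card * ((Fintype.card (Sym2 (Fin N) → Bool) : ℝ) * (1 - 1 / 2 ^ t) ^ (N - t - m)) := by
    calc (Fintype.card (Sym2 (Fin N) → Bool) : ℝ) ≤
        ((∑ x ∈ P, (dom x.1 x.2.1 (univ \ (x.2.1 ∪ x.2.2))).card : ℕ) : ℝ) := by exact_mod_cast h1
      _ = ∑ x ∈ P, ((dom x.1 x.2.1 (univ \ (x.2.1 ∪ x.2.2))).card : ℝ) := by push_cast; rfl
      _ ≤ ∑ _x ∈ P, ((Fintype.card (Sym2 (Fin N) → Bool) : ℝ) * (1 - 1 / 2 ^ t) ^ (N - t - m)) :=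
          sum_le_sum h2
      _ = _ := by rw [sum_const, nsmul_eq_mul]
  have h4 : (P.card : ℝ) ≤ 2 * (N : ℝ) ^ (t + m) := by
    rw [hP, card_product, card_product, card_powersetCard, card_powersetCard]
    simp only [card_univ, Fintype.card_bool, Fintype.card_fin]
    push_cast
    have e1 : (N.choose t : ℝ) ≤ (N : ℝ) ^ t := by exact_mod_cast Nat.choose_le_pow N t
    have e2 : (N.choose m : ℝ) ≤ (N : ℝ) ^ m := by exact_mod_cast Nat.choose_le_pow N m
    rw [pow_add]
    have := mul_le_mul e1 e2 (by positivity) (by positivity)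
    linarith
  have h5 : (0 : ℝ) < (Fintype.card (Sym2 (Fin N) → Bool) : ℝ) := by
    have : 0 < Fintype.card (Sym2 (Fin N) → Bool) := Fintype.card_pos
    exact_mod_cast this
  have h6 : (P.card : ℝ) * (1 - 1 / 2 ^ t) ^ (N - t - m) < 1 :=
    (mul_le_mul_of_nonneg_right h4 (pow_nonneg h0 _)).trans_lt h
  nlinarith

end Pool.Agent.T2H58.MR
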