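import Mathlib

/-!
# Ramsey numbers of star forests: the upper bound

Two colour classes are treated in parallel: in each round we find a new centre for a red star or for a
blue star; Hall's condition (with some room) is kept for the stars of each colour.
-/

set_option autoImplicit false

namespace Pool.Agent.T2H58.MR

open Finset

variable {V : Type} [Fintype V] [DecidableEq V]

/-- the neighbours of `v` in the colour `b` -/
def nb (c : Sym2 V → Bool) (b : Bool) (v : V) : Finset V :=
  univ.filter fun w => w ≠ v ∧ c s(v, w) = b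

theorem mem_nb {c : Sym2 V → Bool} {b : Bool} {v w : V} : w ∈ nb c b v ↔ w ≠ v ∧ c s(v, w) = b := by
  simp [nb]

omit [Fintype V] in
/-- Hall's theorem for disjoint sets of prescribed sizes. -/
theorem hall_sets (a : ℕ) (A : ℕ → Finset V) (l : ℕ → ℕ)
    (h : ∀ I ⊆ range a, ∑ i ∈ I, l i ≤ (I.biUnion A).card) :
    ∃ L : ℕ → Finset V, (∀ i < a, L i ⊆ A i ∧ (L i).card = l i) ∧
      ∀ i < a, ∀ j < a, i ≠ j → Disjoint (L i) (L j) := by
  classical
  have key : ∀ s : Finset (Σ i : Fin a, Fin (l i)), s.card ≤ (s.biUnion fun x => A x.1).card := by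
    intro s
    set I : Finset (Fin a) := s.image Sigma.fst with hI
    have h1 : s ⊆ I.sigma fun i => univ := by
      intro x hx
      rw [mem_sigma]
      exact ⟨mem_image_of_mem _ hx, mem_univ _⟩
    have h2 : s.card ≤ ∑ i ∈ I, l i := by
      refine (card_le_card h1).trans (le_of_eq ?_)
      rw [card_sigma]
      simp
    have h3 : (s.biUnion fun x => A x.1) = (I.image (fun i : Fin a => (i : ℕ))).biUnion A := by
      ext v
      simp only [mem_biUnion, mem_image, hI]
      constructor
      · rintro ⟨x, hx, hv⟩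
        exact ⟨x.1, ⟨x.1, ⟨x, hx, rfl⟩, rfl⟩, hv⟩
      · rintro ⟨i, ⟨j, ⟨x, hx, rfl⟩, rfl⟩, hv⟩
        exact ⟨x, hx, hv⟩
    have h4 := h (I.image (fun i : Fin a => (i : ℕ))) (by
      intro i hi
      obtain ⟨j, -, rfl⟩ := mem_image.1 hi
      exact mem_range.2 j.2)
    rw [sum_image (by intro x _ y _ hxy; exact Fin.ext hxy)] at h4
    rw [h3]
    exact h2.trans h4
  obtain ⟨f, hf, hfA⟩ := (Finset.all_card_le_biUnion_card_iff_exists_injective
    (fun x : (Σ i : Fin a, Fin (l i)) => A x.1)).1 key
  refine ⟨fun i => if hi : i < a then univ.image (fun j : Fin (l i) => f ⟨⟨i, hi⟩, j⟩) else ∅, ?_, ?_⟩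
  · intro i hi
    simp only [hi, dif_pos]
    refine ⟨?_, ?_⟩
    · intro v hv
      obtain ⟨j, -, rfl⟩ := mem_image.1 hv
      exact hfA ⟨⟨i, hi⟩, j⟩
    · rw [card_image_of_injective]
      · simp
      · intro j j' hjj
        have := hf hjj
        simpa using this
  · intro i hi j hj hij
    simp only [hi, hj, dif_pos]
    rw [disjoint_left]
    intro v hv hv'
    obtain ⟨x, -, hx⟩ := mem_image.1 hv
    obtain ⟨y, -, hy⟩ := mem_image.1 hv'
    have := hf (hx.trans hy.symm)
    simp only [Sigma.mk.injEq, Fin.mk.injEq] at this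
    exact hij this.1

/-- `r 0, …, r (a-1)` are the centres of `a` stars of colour `b`; Hall's condition for the leaves holds, with
room `k - a`. -/
structure Good (c : Sym2 V → Bool) (b : Bool) (l : ℕ → ℕ) (k a : ℕ) (r : ℕ → V) : Prop where
  inj : ∀ i < a, ∀ j < a, r i = r j → i = j
  hall : ∀ I ⊆ range a, I.Nonempty →
    ∑ i ∈ I, l i + (k - a) ≤ ((I.biUnion fun i => nb c b (r i)) \ (range a).image r).card

theorem Good.zero (c : Sym2 V → Bool) (b : Bool) (l : ℕ → ℕ) (k : ℕ) (r : ℕ → V) : Good c b l k 0 r where
  inj := fun i hi => absurd hi (Nat.not_lt_zero i)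
  hall := fun I hI hne => by
    obtain ⟨i, hi⟩ := hne
    have := hI hi
    simp at this

/-- the leaves -/
theorem Good.leaves {c : Sym2 V → Bool} {b : Bool} {l : ℕ → ℕ} {k a : ℕ} {r : ℕ → V}
    (h : Good c b l k a r) :
    ∃ L : ℕ → Finset V, (∀ i < a, L i ⊆ nb c b (r i) \ (range a).image r ∧ (L i).card = l i) ∧
      ∀ i < a, ∀ j < a, i ≠ j → Disjoint (L i) (L j) := by
  refine hall_sets a _ l ?_
  intro I hI
  rcases I.eq_empty_or_nonempty with rfl | hne
  · simp
  · have h1 := h.hall I hI hne
    have h2 : ((I.biUnion fun i => nb c b (r i)) \ (range a).image r) =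
        I.biUnion fun i => nb c b (r i) \ (range a).image r := by
      ext v
      simp only [mem_sdiff, mem_biUnion]
      constructor
      · rintro ⟨⟨i, hi, hv⟩, hn⟩
        exact ⟨i, hi, hv, hn⟩
      · rintro ⟨i, hi, hv, hn⟩
        exact ⟨⟨i, hi, hv⟩, hn⟩
    rw [h2] at h1
    exact le_trans (Nat.le_add_right _ _) h1

/-- one more centre -/
theorem Good.step {c : Sym2 V → Bool} {b : Bool} {l : ℕ → ℕ} {k a : ℕ} {r : ℕ → V}
    (h : Good c b l k a r) (ha : a < k) (L : ℕ → Finset V)
    (hL : ∀ i < a, L i ⊆ nb c b (r i) \ (range a).image r ∧ (L i).card = l i)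
    (hd : ∀ i < a, ∀ j < a, i ≠ j → Disjoint (L i) (L j))
    (R : Finset V) (hR : ∀ i < a, Disjoint (L i) R) (hRC : Disjoint ((range a).image r) R)
    (v : V) (hv : v ∉ (range a).image r) (hcard : l a + (k - a) ≤ (nb c b v ∩ R).card) :
    Good c b l k (a + 1) (Function.update r a v) := by
  have hr : ∀ i < a, Function.update r a v i = r i := fun i hi => Function.update_of_ne hi.ne _ _
  have himg : (range (a + 1)).image (Function.update r a v) = insert v ((range a).image r) := by
    rw [range_add_one, image_insert, Function.update_self]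
    congr 1
    refine image_congr ?_
    intro i hi
    exact hr i (by simpa using hi)
  have hv' : ∀ i < a, r i ≠ v := fun i hi he => hv (mem_image.2 ⟨i, mem_range.2 hi, he⟩)
  refine ⟨?_, ?_⟩
  · intro i hi j hj hij
    rcases Nat.lt_succ_iff_lt_or_eq.1 hi with hi | rfl
    · rcases Nat.lt_succ_iff_lt_or_eq.1 hj with hj | rfl
      · rw [hr i hi, hr j hj] at hij
        exact h.inj i hi j hj hij
      · rw [hr i hi, Function.update_self] at hij
        exact absurd hij (hv' i hi)
    · rcases Nat.lt_succ_iff_lt_or_eq.1 hj with hj | rfl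
      · rw [hr j hj, Function.update_self] at hij
        exact absurd hij.symm (hv' j hj)
      · rfl
  · intro I hI hne
    rw [himg]
    by_cases haI : a ∈ I
    · -- the new star is in `I`
      have hI' : I.erase a ⊆ range a := by
        intro i hi
        obtain ⟨h1, h2⟩ := mem_erase.1 hi
        have := mem_range.1 (hI h2)
        rw [mem_range]
        omega
      have hsub : ((I.erase a).biUnion L).erase v ∪ (nb c b v ∩ R) ⊆
          (I.biUnion fun i => nb c b (Function.update r a v i)) \ insert v ((range a).image r) := by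
        intro w hw
        rw [mem_sdiff, mem_biUnion, mem_insert, not_or]
        rcases mem_union.1 hw with hw | hw
        · obtain ⟨h1, h2⟩ := mem_erase.1 hw
          obtain ⟨i, hi, hwi⟩ := mem_biUnion.1 h2
          have hia := mem_range.1 (hI' hi)
          obtain ⟨h3, h4⟩ := mem_sdiff.1 ((hL i hia).1 hwi)
          refine ⟨⟨i, mem_of_mem_erase hi, ?_⟩, h1, h4⟩
          rw [hr i hia]
          exact h3
        · obtain ⟨h1, h2⟩ := mem_inter.1 hw
          refine ⟨⟨a, haI, ?_⟩, (mem_nb.1 h1).1, ?_⟩
          · rw [Function.update_self]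
            exact h1
          · intro h3
            exact disjoint_left.1 hRC h3 h2
      have hdis : Disjoint (((I.erase a).biUnion L).erase v) (nb c b v ∩ R) := by
        rw [disjoint_left]
        intro w hw hw'
        obtain ⟨i, hi, hwi⟩ := mem_biUnion.1 (mem_of_mem_erase hw)
        exact disjoint_left.1 (hR i (mem_range.1 (hI' hi))) hwi (mem_inter.1 hw').2
      have h1 := card_le_card hsub
      rw [card_union_of_disjoint hdis] at h1
      have h2 : ∑ i ∈ I.erase a, l i = ((I.erase a).biUnion L).card := by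
        rw [card_biUnion]
        · exact sum_congr rfl fun i hi => (hL i (mem_range.1 (hI' hi))).2.symm
        · intro i hi j hj hij
          exact hd i (mem_range.1 (hI' hi)) j (mem_range.1 (hI' hj)) hij
      have h3 : ((I.erase a).biUnion L).card - 1 ≤ (((I.erase a).biUnion L).erase v).card :=
        pred_card_le_card_erase
      have h4 : ∑ i ∈ I, l i = l a + ∑ i ∈ I.erase a, l i := (add_sum_erase I l haI).symm
      omega
    · have hI' : I ⊆ range a := by
        intro i hi
        have h1 := mem_range.1 (hI hi)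
        have h2 : i ≠ a := fun e => haI (e ▸ hi)
        rw [mem_range]
        omega
      have h1 := h.hall I hI' hne
      have h2 : (I.biUnion fun i => nb c b (Function.update r a v i)) = I.biUnion fun i => nb c b (r i) := by
        refine biUnion_congr rfl ?_
        intro i hi
        rw [hr i (mem_range.1 (hI' hi))]
      rw [h2, sdiff_insert]
      have h3 := pred_card_le_card_erase (s := (I.biUnion fun i => nb c b (r i)) \ (range a).image r) (a := v)
      omega

/-- Double counting: between two nonempty sets one of the colours is dense seen from one of the sides. -/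
theorem dense_side (c : Sym2 V → Bool) (R B : Finset V) (hR : R.Nonempty) (hB : B.Nonempty) :
    (∃ v ∈ B, R.card / 2 ≤ (nb c true v ∩ R).card) ∨ (∃ v ∈ R, B.card / 2 ≤ (nb c false v ∩ B).card) := by
  by_contra hcon
  push Not at hcon
  obtain ⟨h1, h2⟩ := hcon
  have e1 : ∑ v ∈ B, (nb c true v ∩ R).card = ∑ v ∈ B, ∑ w ∈ R, if w ≠ v ∧ c s(v, w) = true then 1 else 0 := by
    refine sum_congr rfl fun v _ => ?_
    rw [card_eq_sum_ones, ← sum_filter]
    refine sum_congr ?_ fun _ _ => rfl
    ext w
    simp only [mem_inter, mem_nb, mem_filter]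
    tauto
  have e2 : ∑ w ∈ R, (nb c false w ∩ B).card = ∑ v ∈ B, ∑ w ∈ R, if w ≠ v ∧ c s(v, w) = false then 1 else 0 := by
    rw [sum_comm]
    refine sum_congr rfl fun w _ => ?_
    rw [card_eq_sum_ones, ← sum_filter]
    refine sum_congr ?_ fun _ _ => rfl
    ext v
    simp only [mem_inter, mem_nb, mem_filter]
    rw [Sym2.eq_swap]
    constructor
    · rintro ⟨⟨h, h'⟩, h''⟩
      exact ⟨h'', fun e => h e.symm, h'⟩
    · rintro ⟨h'', h, h'⟩
      exact ⟨⟨fun e => h e.symm, h'⟩, h''⟩
  have e3 : R.card * B.card ≤ (∑ v ∈ B, (nb c true v ∩ R).card + ∑ w ∈ R, (nb c false w ∩ B).card) + B.card := by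
    rw [e1, e2, ← sum_add_distrib]
    have : ∀ v ∈ B, R.card ≤ (∑ w ∈ R, (if w ≠ v ∧ c s(v, w) = true then 1 else 0) +
        ∑ w ∈ R, (if w ≠ v ∧ c s(v, w) = false then 1 else 0)) + 1 := by
      intro v _
      rw [← sum_add_distrib]
      have h5 : ∀ w ∈ R, w ≠ v → ((if w ≠ v ∧ c s(v, w) = true then 1 else 0) +
          (if w ≠ v ∧ c s(v, w) = false then 1 else 0)) = 1 := by
        intro w _ hwv
        cases hc : c s(v, w) <;> simp [hwv]
      have h6 : (R.erase v).card ≤ ∑ w ∈ R, ((if w ≠ v ∧ c s(v, w) = true then 1 else 0) +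
          (if w ≠ v ∧ c s(v, w) = false then 1 else 0)) := by
        rw [card_eq_sum_ones]
        calc ∑ _w ∈ R.erase v, 1 = ∑ w ∈ R.erase v, ((if w ≠ v ∧ c s(v, w) = true then 1 else 0) +
              (if w ≠ v ∧ c s(v, w) = false then 1 else 0)) :=
              sum_congr rfl fun w hw => (h5 w (mem_of_mem_erase hw) (ne_of_mem_erase hw)).symm
          _ ≤ _ := sum_le_sum_of_subset (erase_subset v R)
      have h7 : R.card - 1 ≤ (R.erase v).card := pred_card_le_card_erase
      omega
    have h8 := sum_le_sum this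
    rw [sum_const, smul_eq_mul, sum_add_distrib, sum_const, smul_eq_mul, mul_one] at h8
    linarith [mul_comm R.card B.card]
  have f1 : ∑ v ∈ B, (2 * (nb c true v ∩ R).card + 2) ≤ ∑ _v ∈ B, R.card :=
    sum_le_sum fun v hv => by have := h1 v hv; omega
  have f2 : ∑ w ∈ R, (2 * (nb c false w ∩ B).card + 2) ≤ ∑ _w ∈ R, B.card :=
    sum_le_sum fun w hw => by have := h2 w hw; omega
  rw [sum_add_distrib, ← mul_sum, sum_const, sum_const, smul_eq_mul, smul_eq_mul] at f1 f2
  have hBp := hB.card_pos
  have hRp := hR.card_pos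
  have : B.card * R.card = R.card * B.card := mul_comm _ _
  omega

/-- After at most `2k - 1` rounds there are `k` centres of one colour. -/
theorem rounds (c : Sym2 V → Bool) (l : ℕ → ℕ) (k : ℕ)
    (hl : ∀ a < k, 2 * (l a + (k - a)) + a + (k - 1) + ∑ i ∈ range a, l i ≤ Fintype.card V) :
    ∀ (m a b : ℕ) (r s : ℕ → V), a ≤ k → b ≤ k → a + b + m = 2 * k → Good c true l k a r →
      Good c false l k b s → Disjoint ((range a).image r) ((range b).image s) →
      ∃ (d : Bool) (t : ℕ → V), Good c d l k k t := by
  intro m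
  induction m with
  | zero =>
    intro a b r s ha hb hm hr hs _
    have : a = k := by omega
    subst this
    exact ⟨true, r, hr⟩
  | succ m ih =>
    intro a b r s ha hb hm hr hs hrs
    rcases Nat.lt_or_ge a k with hak | hak
    swap
    · have : a = k := by omega
      subst this
      exact ⟨true, r, hr⟩
    rcases Nat.lt_or_ge b k with hbk | hbk
    swap
    · have : b = k := by omega
      subst this
      exact ⟨false, s, hs⟩
    obtain ⟨L, hL, hLd⟩ := hr.leaves
    obtain ⟨M, hM, hMd⟩ := hs.leaves
    -- the vertices which are not centres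
    set W : Finset V := univ \ ((range a).image r ∪ (range b).image s) with hW
    have hWc : Fintype.card V ≤ W.card + a + b := by
      have h1 : ((range a).image r ∪ (range b).image s).card ≤ a + b := by
        refine (card_union_le _ _).trans ?_
        have := card_image_le (s := range a) (f := r)
        have := card_image_le (s := range b) (f := s)
        simp only [card_range] at *
        omega
      have h2 := card_sdiff_add_card_eq_card (subset_univ ((range a).image r ∪ (range b).image s))
      rw [card_univ, ← hW] at h2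
      omega
    have hsum : ∀ (x : ℕ) (K : ℕ → Finset V), (∀ i < x, (K i).card = l i) →
        W.card ≤ (W \ (range x).biUnion K).card + ∑ i ∈ range x, l i := by
      intro x K hK
      have h1 : ((range x).biUnion K).card ≤ ∑ i ∈ range x, l i :=
        card_biUnion_le.trans (le_of_eq (sum_congr rfl fun i hi => hK i (mem_range.1 hi)))
      have h2 := le_card_sdiff ((range x).biUnion K) W
      omega
    have h1 := hsum a L fun i hi => (hL i hi).2
    have h2 := hsum b M fun i hi => (hM i hi).2
    set R := W \ (range a).biUnion L with hRdef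
    set B := W \ (range b).biUnion M with hBdef
    have h3 := hl a hak
    have h4 := hl b hbk
    have hRn : R.Nonempty := card_pos.1 (by omega)
    have hBn : B.Nonempty := card_pos.1 (by omega)
    have hWr : ∀ v ∈ W, v ∉ (range a).image r := fun v hv h => by
      rw [hW, mem_sdiff, mem_union, not_or] at hv
      exact hv.2.1 h
    have hWs : ∀ v ∈ W, v ∉ (range b).image s := fun v hv h => by
      rw [hW, mem_sdiff, mem_union, not_or] at hv
      exact hv.2.2 h
    rcases dense_side c R B hRn hBn with ⟨v, hv, hd⟩ | ⟨v, hv, hd⟩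
    · have hvW : v ∈ W := (mem_sdiff.1 hv).1
      refine ih (a + 1) b (Function.update r a v) s (by omega) hb (by omega)
        (hr.step hak L hL hLd R ?_ ?_ v (hWr v hvW) (by omega)) hs ?_
      · intro i hi
        rw [disjoint_left]
        intro w hw hw'
        exact (mem_sdiff.1 hw').2 (mem_biUnion.2 ⟨i, mem_range.2 hi, hw⟩)
      · rw [disjoint_left]
        intro w hw hw'
        exact hWr w (mem_sdiff.1 hw').1 hw
      · rw [disjoint_left]
        intro w hw hw'
        obtain ⟨i, hi, rfl⟩ := mem_image.1 hw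
        have hi' := mem_range.1 hi
        rcases Nat.lt_succ_iff_lt_or_eq.1 hi' with h | rfl
        · rw [Function.update_of_ne h.ne] at hw'
          exact disjoint_left.1 hrs (mem_image.2 ⟨i, mem_range.2 h, rfl⟩) hw'
        · rw [Function.update_self] at hw'
          exact hWs v hvW hw'
    · have hvW : v ∈ W := (mem_sdiff.1 hv).1
      refine ih a (b + 1) r (Function.update s b v) ha (by omega) (by omega) hr
        (hs.step hbk M hM hMd B ?_ ?_ v (hWs v hvW) (by omega)) ?_
      · intro i hi
        rw [disjoint_left]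
        intro w hw hw'
        exact (mem_sdiff.1 hw').2 (mem_biUnion.2 ⟨i, mem_range.2 hi, hw⟩)
      · rw [disjoint_left]
        intro w hw hw'
        exact hWs w (mem_sdiff.1 hw').1 hw
      · rw [disjoint_left]
        intro w hw' hw
        obtain ⟨i, hi, rfl⟩ := mem_image.1 hw
        have hi' := mem_range.1 hi
        rcases Nat.lt_succ_iff_lt_or_eq.1 hi' with h | rfl
        · rw [Function.update_of_ne h.ne] at hw'
          exact disjoint_left.1 hrs hw' (mem_image.2 ⟨i, mem_range.2 h, rfl⟩)
        · rw [Function.update_self] at hw'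
          exact hWr v hvW hw'

/-- In every 2-colouring of the edges of the complete graph on `V` there are `k` disjoint stars of the same
colour with `l 0, …, l (k-1)` leaves. -/
theorem mono_stars [Nonempty V] (c : Sym2 V → Bool) (l : ℕ → ℕ) (k : ℕ)
    (hl : ∀ a < k, 2 * (l a + (k - a)) + a + (k - 1) + ∑ i ∈ range a, l i ≤ Fintype.card V) :
    ∃ (d : Bool) (t : ℕ → V) (L : ℕ → Finset V), (∀ i < k, ∀ j < k, t i = t j → i = j) ∧
      (∀ i < k, (L i).card = l i) ∧ (∀ i < k, ∀ w ∈ L i, c s(t i, w) = d) ∧
      (∀ i < k, ∀ j < k, t i ∉ L j) ∧ ∀ i < k, ∀ j < k, i ≠ j → Disjoint (L i) (L j) := by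
  obtain ⟨v₀⟩ := ‹Nonempty V›
  obtain ⟨d, t, ht⟩ := rounds c l k hl (2 * k) 0 0 (fun _ => v₀) (fun _ => v₀) (Nat.zero_le _) (Nat.zero_le _)
    (by omega) (Good.zero _ _ _ _ _) (Good.zero _ _ _ _ _) (by simp)
  obtain ⟨L, hL, hLd⟩ := ht.leaves
  refine ⟨d, t, L, ht.inj, fun i hi => (hL i hi).2, ?_, ?_, hLd⟩
  · intro i hi w hw
    exact (mem_nb.1 (mem_sdiff.1 ((hL i hi).1 hw)).1).2
  · intro i hi j hj h
    exact (mem_sdiff.1 ((hL j hj).1 h)).2 (mem_image.2 ⟨i, mem_range.2 hi, rfl⟩)

end Pool.Agent.T2H58.MR
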